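import Pool.Agent.TH927.CM.Defs
import Pool.Agent.W640.MO.H1

/-!
# MP_768c9c_nt, task H1c: hosts of much smaller scale, completely multiplicative version

Adapted from `Pool.Agent.W640.MO.H1`.
-/

set_option autoImplicit false

namespace Pool.Agent.TH715.J785

open Finset Filter Topology
open scoped Classical
open Pool.Agent.W76.MO
open Pool.Agent.W640.MO
open Pool.Agent.TH927.CM

/-- bound for the products with multiplicity -/
theorem mprod_le_rpow (v : ℕ → ℝ) (a : ℝ) (_ha : 0 ≤ a) (h0 : ∀ p, 0 ≤ v p)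
    (hf : ∀ p : ℕ, p.Prime → v p ≤ (p : ℝ) ^ a) (m : ℕ) (hm : 1 ≤ m) :
    mprod v m ≤ (m : ℝ) ^ a := by
  induction m using Nat.recOnMul with
  | zero => omega
  | one => rw [mprod_one]; simp
  | prime p hp => rw [mprod_prime v hp]; exact hf p hp
  | mul x y hx hy =>
    have hx0 : x ≠ 0 := by rintro rfl; simp at hm
    have hy0 : y ≠ 0 := by rintro rfl; simp at hm
    rw [mprod_mul v hx0 hy0]
    push_cast
    rw [Real.mul_rpow (by positivity) (by positivity)]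
    have h1 := hx (Nat.one_le_iff_ne_zero.mpr hx0)
    have h2 := hy (Nat.one_le_iff_ne_zero.mpr hy0)
    exact mul_le_mul h1 h2 (mprod_nonneg v h0 y) (by positivity)

/-- bound for `Ec` -/
theorem Ec_le (E : Env) {j : ℕ}
    (h0 : ∀ p : ℕ, 0 ≤ E.gu j p) (h0' : ∀ q : ℕ, 0 ≤ E.gh j q)
    (hf : ∀ p : ℕ, p.Prime → 1 + 2 * (p * E.g j p) ≤ (p : ℝ) ^ (9 * E.δ)) (m : ℕ) (hm : 1 ≤ m) :
    Ec E j m ≤ (m : ℝ) ^ (9 * E.δ) := by
  have hδ := E.hδ
  unfold Ec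
  apply mprod_le_rpow _ _ (by positivity) _ hf m hm
  intro p
  have : 0 ≤ E.g j p := add_nonneg (h0 p) (h0' p)
  positivity

theorem Ec_nonneg (E : Env) {j : ℕ}
    (h0 : ∀ p : ℕ, 0 ≤ E.gu j p) (h0' : ∀ q : ℕ, 0 ≤ E.gh j q) (m : ℕ) : 0 ≤ Ec E j m := by
  unfold Ec
  apply mprod_nonneg
  intro p
  have : 0 ≤ E.g j p := add_nonneg (h0 p) (h0' p)
  positivity

/-- the exponent of a prime in `n ≤ 2 ^ (i+1)` is at most `i + 1` -/
theorem fact_le {n i : ℕ} (hn : n ≤ 2 ^ (i + 1)) (q : ℕ) :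
    n.factorization q ≤ i + 1 := by
  by_cases hn0 : n = 0
  · simp [hn0]
  by_cases hq : q.Prime
  · have h1 : q ^ n.factorization q ≤ n := Nat.le_of_dvd (Nat.pos_of_ne_zero hn0) (Nat.ordProj_dvd n q)
    have h2 : 2 ^ n.factorization q ≤ q ^ n.factorization q := Nat.pow_le_pow_left hq.two_le _
    have h3 : 2 ^ n.factorization q ≤ 2 ^ (i + 1) := h2.trans (h1.trans hn)
    exact (Nat.pow_le_pow_iff_right (by norm_num)).mp h3
  · rw [Nat.factorization_eq_zero_of_not_prime n hq]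
    omega

/-- the bound for `HTc` -/
theorem HTc_le (E : Env) {j : ℕ}
    (h0 : ∀ p : ℕ, 0 ≤ E.gu j p) (h0' : ∀ q : ℕ, 0 ≤ E.gh j q)
    (hf : ∀ p : ℕ, p.Prime → 1 + 2 * (p * E.g j p) ≤ (p : ℝ) ^ (9 * E.δ))
    (R i k i' k' : ℕ) (hk : k < nc E.δ i) (hk' : k' < nc E.δ i') :
    HTc E j R i k i' k' (fun _ _ => True) ≤
      ((i : ℝ) + 1) * (E.w i' * ((2 : ℝ) ^ (i' + 1) / 2 ^ i) * (2 * (2 : ℝ) ^ (9 * E.δ * i)) *
        (hh E.δ i * (2 : ℝ) ^ (-(1 / 2 + E.τ) * i') + 1)) := by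
  have hδ := E.hδ
  have hτ := E.hτ
  have hδτ := E.hδ'
  have hτ1 := E.hτ'
  set N : ℕ := (E.Host j i' k').card with hN
  set B : ℝ := ((i : ℝ) + 1) * (E.w i' / (N : ℝ) * ((2 : ℝ) ^ (i' + 1) / 2 ^ i) *
    (2 * (2 : ℝ) ^ (9 * E.δ * i))) with hB
  have hw := w_nonneg E i'
  have hB0 : 0 ≤ B := by positivity
  unfold HTc
  beta_reduce
  -- each term is at most `B`
  have hterm : ∀ u ∈ ((E.Host j i' k') ×ˢ (cr E R i k)).filter (fun u : ℕ × ℕ =>
      lp u.1 ∣ u.2 ∧ (2 : ℝ) ^ (1 / 20 * (i : ℝ)) < lp u.1 ∧ True),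
      (u.2.factorization (lp u.1) : ℝ) *
        (E.w i' / ((E.Host j i' k').card : ℝ) * ((u.1 : ℝ) / u.2) * Ec E j (u.2 / lp u.1)) ≤ B := by
    rintro ⟨n₁, n⟩ hu
    simp only [mem_filter, mem_product, and_true] at hu
    obtain ⟨⟨hn₁, hn⟩, hdvd, -⟩ := hu
    unfold Env.Host at hn₁
    unfold cr at hn
    rw [mem_filter] at hn₁ hn
    obtain ⟨h1a, h1b⟩ := cell_le hk' hn₁.1
    obtain ⟨h2a, h2b⟩ := cell_le hk hn.1
    have hlp : 0 < lp n₁ := by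
      have h := hn₁.2.1
      have h' : (0 : ℝ) < (2 : ℝ) ^ ((1 / 2 + E.τ) * (i' : ℝ)) := by positivity
      exact_mod_cast h'.trans_le h
    have hn0 : 0 < n := lt_of_le_of_lt (Nat.zero_le _) h2a
    have hq1 : 1 ≤ n / lp n₁ := Nat.div_pos (Nat.le_of_dvd hn0 hdvd) hlp
    have hE2 : Ec E j (n / lp n₁) ≤ 2 * (2 : ℝ) ^ (9 * E.δ * i) := by
      refine (Ec_le E h0 h0' hf _ hq1).trans ?_
      have h3 : ((n / lp n₁ : ℕ) : ℝ) ≤ 2 ^ (i + 1) := by
        have : n / lp n₁ ≤ 2 ^ (i + 1) := (Nat.div_le_self _ _).trans h2b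
        exact_mod_cast this
      calc ((n / lp n₁ : ℕ) : ℝ) ^ (9 * E.δ) ≤ ((2 : ℝ) ^ (i + 1)) ^ (9 * E.δ) :=
            Real.rpow_le_rpow (by positivity) h3 (by positivity)
        _ = (2 : ℝ) ^ (9 * E.δ) * (2 : ℝ) ^ (9 * E.δ * i) := by
            rw [← Real.rpow_natCast 2 (i + 1), ← Real.rpow_mul (by norm_num),
              ← Real.rpow_add (by norm_num)]
            push_cast
            ring_nf
        _ ≤ 2 * (2 : ℝ) ^ (9 * E.δ * i) := by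
            apply mul_le_mul_of_nonneg_right _ (by positivity)
            calc (2 : ℝ) ^ (9 * E.δ) ≤ (2 : ℝ) ^ (1 : ℝ) :=
                  Real.rpow_le_rpow_of_exponent_le (by norm_num) (by linarith)
              _ = 2 := Real.rpow_one 2
    have hratio : (n₁ : ℝ) / n ≤ (2 : ℝ) ^ (i' + 1) / 2 ^ i := by
      have h1 : (n₁ : ℝ) ≤ (2 : ℝ) ^ (i' + 1) := by exact_mod_cast h1b
      have h2 : (2 : ℝ) ^ i ≤ n := by exact_mod_cast h2a.le
      exact div_le_div₀ (by positivity) h1 (by positivity) h2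
    have hfac : (n.factorization (lp n₁) : ℝ) ≤ (i : ℝ) + 1 := by
      exact_mod_cast fact_le h2b (lp n₁)
    rw [hB]
    have hE20 := Ec_nonneg E h0 h0' (n / lp n₁) (j := j)
    show (n.factorization (lp n₁) : ℝ) *
      (E.w i' / (N : ℝ) * ((n₁ : ℝ) / n) * Ec E j (n / lp n₁)) ≤ _
    gcongr
  have hsum := sum_le_card_nsmul _ _ B hterm
  refine le_trans (le_of_eq (Finset.sum_congr (by ext u; simp only [mem_filter]) (fun _ _ => rfl)))
    (hsum.trans ?_)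
  rw [nsmul_eq_mul]
  -- the number of terms
  have hcard : ((((E.Host j i' k') ×ˢ (cr E R i k)).filter (fun u : ℕ × ℕ =>
      lp u.1 ∣ u.2 ∧ (2 : ℝ) ^ (1 / 20 * (i : ℝ)) < lp u.1 ∧ True)).card : ℝ) ≤
      N * (hh E.δ i * (2 : ℝ) ^ (-(1 / 2 + E.τ) * i') + 1) := by
    have h1 : (((E.Host j i' k') ×ˢ (cr E R i k)).filter (fun u : ℕ × ℕ =>
      lp u.1 ∣ u.2 ∧ (2 : ℝ) ^ (1 / 20 * (i : ℝ)) < lp u.1 ∧ True)) ⊆
      (E.Host j i' k').biUnion (fun n₁ => ((cell E.δ i k).filter (fun n => lp n₁ ∣ n)).image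
        (fun n => (n₁, n))) := by
      rintro ⟨n₁, n⟩ hu
      simp only [mem_filter, mem_product, and_true] at hu
      obtain ⟨⟨hn₁, hn⟩, hdvd, -⟩ := hu
      unfold cr at hn
      rw [mem_filter] at hn
      rw [mem_biUnion]
      exact ⟨n₁, hn₁, mem_image.mpr ⟨n, mem_filter.mpr ⟨hn.1, hdvd⟩, rfl⟩⟩
    have h2 := (card_le_card h1).trans card_biUnion_le
    have h3 : (((((E.Host j i' k') ×ˢ (cr E R i k)).filter (fun u : ℕ × ℕ =>
      lp u.1 ∣ u.2 ∧ (2 : ℝ) ^ (1 / 20 * (i : ℝ)) < lp u.1 ∧ True)).card : ℕ) : ℝ) ≤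
      ∑ n₁ ∈ E.Host j i' k', ((((cell E.δ i k).filter (fun n => lp n₁ ∣ n)).image
        (fun n => (n₁, n))).card : ℝ) := by
      exact_mod_cast h2
    refine h3.trans ?_
    have h4 : ∀ n₁ ∈ E.Host j i' k', ((((cell E.δ i k).filter (fun n => lp n₁ ∣ n)).image
        (fun n => (n₁, n))).card : ℝ) ≤ hh E.δ i * (2 : ℝ) ^ (-(1 / 2 + E.τ) * i') + 1 := by
      intro n₁ hn₁
      unfold Env.Host at hn₁
      rw [mem_filter] at hn₁
      have h := hn₁.2.1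
      have h' : (0 : ℝ) < (2 : ℝ) ^ ((1 / 2 + E.τ) * (i' : ℝ)) := by positivity
      have hlp : 0 < lp n₁ := by exact_mod_cast h'.trans_le h
      have hlpr : (0 : ℝ) < lp n₁ := by exact_mod_cast hlp
      have h5 : (((cell E.δ i k).filter (fun n => lp n₁ ∣ n)).image
        (fun n => (n₁, n))).card ≤ hh E.δ i / lp n₁ + 1 := by
        refine card_image_le.trans ?_
        have := card_mult_le (2 ^ i + k * hh E.δ i) (hh E.δ i) (lp n₁) hlp
        unfold cell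
        have he : 2 ^ i + (k + 1) * hh E.δ i = 2 ^ i + k * hh E.δ i + hh E.δ i := by ring
        rw [he]
        exact this
      have h6 : ((hh E.δ i / lp n₁ : ℕ) : ℝ) ≤ hh E.δ i / (lp n₁ : ℝ) := Nat.cast_div_le
      have h7 : (hh E.δ i : ℝ) / (lp n₁ : ℝ) ≤ hh E.δ i * (2 : ℝ) ^ (-(1 / 2 + E.τ) * i') := by
        rw [div_eq_mul_inv]
        apply mul_le_mul_of_nonneg_left _ (by positivity)
        rw [neg_mul, Real.rpow_neg (by norm_num)]
        exact inv_anti₀ h' h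
      calc ((((cell E.δ i k).filter (fun n => lp n₁ ∣ n)).image
        (fun n => (n₁, n))).card : ℝ) ≤ ((hh E.δ i / lp n₁ + 1 : ℕ) : ℝ) := by exact_mod_cast h5
        _ = ((hh E.δ i / lp n₁ : ℕ) : ℝ) + 1 := by push_cast; ring
        _ ≤ _ := by linarith
    refine (sum_le_card_nsmul _ _ _ h4).trans ?_
    rw [nsmul_eq_mul]
  refine (mul_le_mul_of_nonneg_right hcard hB0).trans ?_
  rw [hB]
  by_cases hN0 : N = 0
  · rw [hN0]
    simp only [Nat.cast_zero, zero_mul, div_zero, mul_zero]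
    positivity
  · have hN1 : (N : ℝ) ≠ 0 := by exact_mod_cast hN0
    apply le_of_eq
    field_simp

/-- `HTc` vanishes if `i'` is very small -/
theorem HTc_zero (E : Env) (j R i k i' k' : ℕ) (P : ℕ → ℕ → Prop) (hk' : k' < nc E.δ i')
    (h : (i' : ℝ) + 1 ≤ 1 / 20 * i) : HTc E j R i k i' k' P = 0 := by
  unfold HTc
  apply sum_eq_zero
  rintro ⟨n₁, n⟩ hu
  exfalso
  simp only [mem_filter, mem_product] at hu
  obtain ⟨⟨hn₁, hn⟩, hdvd, hlt, -⟩ := hu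
  unfold Env.Host at hn₁
  rw [mem_filter] at hn₁
  obtain ⟨h1a, h1b⟩ := cell_le hk' hn₁.1
  have h2 : (lp n₁ : ℝ) ≤ (2 : ℝ) ^ (i' + 1) := by
    have : lp n₁ ≤ 2 ^ (i' + 1) := hn₁.2.2.1.le.trans h1b
    exact_mod_cast this
  have h3 : (2 : ℝ) ^ (i' + 1) ≤ (2 : ℝ) ^ (1 / 20 * (i : ℝ)) := by
    rw [← Real.rpow_natCast 2 (i' + 1)]
    apply Real.rpow_le_rpow_of_exponent_le (by norm_num)
    push_cast
    exact h
  linarith

/-- task H1c -/
theorem H1_c : T_H1c := by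
  intro E _ hGB
  have hδ := E.hδ
  have hτ := E.hτ
  have hδτ := E.hδ'
  have hτ1 := E.hτ'
  obtain ⟨J₁, hJ₁1, hJ₁⟩ := hGB
  obtain ⟨J₂, hJ₂⟩ := poly_le_two_rpow (E.τ / 25) (by positivity) (64 * 24 * 5) 42
  refine ⟨max (max J₁ J₂) (max E.i₁ 2), fun j hj R i k hji hk => ?_⟩
  have hjJ₁ : J₁ ≤ j := le_trans (le_trans (le_max_left _ _) (le_max_left _ _)) hj
  have hjJ₂ : J₂ ≤ j := le_trans (le_trans (le_max_right _ _) (le_max_left _ _)) hj
  have hji₁ : E.i₁ ≤ j := le_trans (le_trans (le_max_left _ _) (le_max_right _ _)) hj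
  have hj2 : 2 ≤ j := le_trans (le_trans (le_max_right _ _) (le_max_right _ _)) hj
  obtain ⟨-, h0, h0', hgu, hgh, hU, hH, -, -⟩ := hJ₁ j hjJ₁
  have hf := factor_le E hj2 hgu hgh hU hH
  have hi2 : 2 ≤ i := hj2.trans hji
  have hi1 : (1 : ℝ) ≤ i := by exact_mod_cast (by omega : 1 ≤ i)
  have hi0 : (0 : ℝ) < i := by linarith
  -- the bound for one value of `i'`
  set T : ℝ := 12 * (2 : ℝ) ^ (-(1 / 2 + E.δ / 2) * i) * (2 : ℝ) ^ (-(E.τ / 25) * i) with hT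
  have hT0 : 0 ≤ T := by positivity
  have hone : ∀ i' ∈ (range (2 * i + 3)).filter (fun i' : ℕ => j ≤ i' ∧ (i' : ℝ) < (1 - E.τ) * i),
      ∑ k' ∈ E.Bad i', HTc E j R i k i' k' (fun _ _ => True) ≤ ((i : ℝ) + 1) * T := by
    intro i' hi'
    rw [mem_filter] at hi'
    obtain ⟨-, hji', hi'lt⟩ := hi'
    have hi'1 : (1 : ℝ) ≤ i' := by exact_mod_cast (by omega : 1 ≤ i')
    by_cases hsmall : (i' : ℝ) + 1 ≤ 1 / 20 * i
    · have : ∑ k' ∈ E.Bad i', HTc E j R i k i' k' (fun _ _ => True) = 0 := by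
        apply sum_eq_zero
        intro k' hk'
        unfold Env.Bad at hk'
        rw [mem_filter, mem_range] at hk'
        exact HTc_zero E j R i k i' k' _ hk'.1 hsmall
      rw [this]
      positivity
    · push Not at hsmall
      have hsum : ∑ k' ∈ E.Bad i', HTc E j R i k i' k' (fun _ _ => True) ≤
          ((E.Bad i').card : ℝ) * (((i : ℝ) + 1) * (E.w i' * ((2 : ℝ) ^ (i' + 1) / 2 ^ i) *
            (2 * (2 : ℝ) ^ (9 * E.δ * i)) *
            (hh E.δ i * (2 : ℝ) ^ (-(1 / 2 + E.τ) * i') + 1))) := by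
        rw [← nsmul_eq_mul]
        apply sum_le_card_nsmul
        intro k' hk'
        unfold Env.Bad at hk'
        rw [mem_filter, mem_range] at hk'
        exact HTc_le E h0 h0' hf R i k i' k' hk hk'.1
      have hbad : ((E.Bad i').card : ℝ) ≤ (2 : ℝ) ^ (3 * E.δ * i') :=
        E.u_bad i' (hji₁.trans hji')
      have hw : E.w i' ≤ (2 : ℝ) ^ (-(1 / 2 + E.δ / 2) * i') := by
        unfold Env.w
        apply div_le_self (by positivity)
        exact one_le_pow₀ hi'1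
      have hw0 := w_nonneg E i'
      have hh1 := hh_le E.δ (by linarith) i
      have hp1 : ((2 : ℝ) ^ (i' + 1) / 2 ^ i) = 2 * (2 : ℝ) ^ ((i' : ℝ) - i) := by
        rw [Real.rpow_sub (by norm_num), Real.rpow_natCast, Real.rpow_natCast, pow_succ]
        ring
      have hstep : ∑ k' ∈ E.Bad i', HTc E j R i k i' k' (fun _ _ => True) ≤
          ((i : ℝ) + 1) * ((2 : ℝ) ^ (3 * E.δ * i') * ((2 : ℝ) ^ (-(1 / 2 + E.δ / 2) * i') *
            (2 * (2 : ℝ) ^ ((i' : ℝ) - i)) * (2 * (2 : ℝ) ^ (9 * E.δ * i)) *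
            ((2 : ℝ) ^ ((1 / 2 - E.δ) * i) * (2 : ℝ) ^ (-(1 / 2 + E.τ) * i') + 1))) := by
        refine hsum.trans ?_
        rw [hp1, mul_left_comm]
        gcongr
      refine hstep.trans ?_
      apply mul_le_mul_of_nonneg_left _ (by positivity)
      have hexp : (2 : ℝ) ^ (3 * E.δ * i') * ((2 : ℝ) ^ (-(1 / 2 + E.δ / 2) * i') *
            (2 * (2 : ℝ) ^ ((i' : ℝ) - i)) * (2 * (2 : ℝ) ^ (9 * E.δ * i)) *
            ((2 : ℝ) ^ ((1 / 2 - E.δ) * i) * (2 : ℝ) ^ (-(1 / 2 + E.τ) * i') + 1)) =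
          4 * (2 : ℝ) ^ (3 * E.δ * i' + (-(1 / 2 + E.δ / 2) * i') + ((i' : ℝ) - i) +
            9 * E.δ * i + (1 / 2 - E.δ) * i + (-(1 / 2 + E.τ) * i')) +
          4 * (2 : ℝ) ^ (3 * E.δ * i' + (-(1 / 2 + E.δ / 2) * i') + ((i' : ℝ) - i) +
            9 * E.δ * i) := by
        rw [Real.rpow_add (by norm_num), Real.rpow_add (by norm_num), Real.rpow_add (by norm_num),
          Real.rpow_add (by norm_num), Real.rpow_add (by norm_num)]
        ring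
      rw [hexp, hT, mul_assoc 12, ← Real.rpow_add (by norm_num)]
      have hA : (2 : ℝ) ^ (3 * E.δ * i' + (-(1 / 2 + E.δ / 2) * i') + ((i' : ℝ) - i) +
            9 * E.δ * i + (1 / 2 - E.δ) * i + (-(1 / 2 + E.τ) * i')) ≤
          2 * (2 : ℝ) ^ (-(1 / 2 + E.δ / 2) * i + -(E.τ / 25) * i) := by
        have : 2 * (2 : ℝ) ^ (-(1 / 2 + E.δ / 2) * i + -(E.τ / 25) * i) =
            (2 : ℝ) ^ (1 + (-(1 / 2 + E.δ / 2) * i + -(E.τ / 25) * i)) := by
          rw [Real.rpow_add (by norm_num) 1, Real.rpow_one]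
        rw [this]
        apply Real.rpow_le_rpow_of_exponent_le (by norm_num)
        nlinarith [mul_pos hτ hi0, mul_pos hδ hi0, mul_nonneg (by linarith : 0 ≤ E.τ / 1000 - E.δ)
          hi0.le, mul_nonneg (by linarith : 0 ≤ E.τ - 5 / 2 * E.δ)
          (by linarith : 0 ≤ (i' : ℝ) + 1 - 1 / 20 * i)]
      have hB : (2 : ℝ) ^ (3 * E.δ * i' + (-(1 / 2 + E.δ / 2) * i') + ((i' : ℝ) - i) +
            9 * E.δ * i) ≤ (2 : ℝ) ^ (-(1 / 2 + E.δ / 2) * i + -(E.τ / 25) * i) := by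
        apply Real.rpow_le_rpow_of_exponent_le (by norm_num)
        nlinarith [mul_pos hτ hi0, mul_pos hδ hi0, mul_nonneg (by linarith : 0 ≤ E.τ / 1000 - E.δ)
          hi0.le, mul_nonneg (by linarith : 0 ≤ 1 / 2 + 5 / 2 * E.δ)
          (by linarith : 0 ≤ (1 - E.τ) * i - i'), mul_pos (mul_pos hτ hδ) hi0]
      linarith
  have hsum := sum_le_card_nsmul _ _ (((i : ℝ) + 1) * T) hone
  refine hsum.trans ?_
  rw [nsmul_eq_mul]
  have hc : ((((range (2 * i + 3)).filter (fun i' : ℕ => j ≤ i' ∧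
      (i' : ℝ) < (1 - E.τ) * i)).card : ℕ) : ℝ) ≤ 5 * i := by
    have h := card_filter_le (range (2 * i + 3)) (fun i' : ℕ => j ≤ i' ∧
      (i' : ℝ) < (1 - E.τ) * i)
    rw [card_range] at h
    have h' : ((range (2 * i + 3)).filter (fun i' : ℕ => j ≤ i' ∧
      (i' : ℝ) < (1 - E.τ) * i)).card ≤ 5 * i := by omega
    exact_mod_cast h'
  have hi2' : (i : ℝ) + 1 ≤ 2 * i := by linarith
  have hstep2 : ((((range (2 * i + 3)).filter (fun i' : ℕ => j ≤ i' ∧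
      (i' : ℝ) < (1 - E.τ) * i)).card : ℕ) : ℝ) * (((i : ℝ) + 1) * T) ≤
      5 * i * (2 * i * T) := by
    gcongr
  refine hstep2.trans ?_
  have hpoly := hJ₂ i (hjJ₂.trans hji)
  have hpow : (0 : ℝ) < (i : ℝ) ^ 40 := by positivity
  unfold Env.w
  rw [div_div, le_div_iff₀ (by positivity), hT]
  have hneg : (2 : ℝ) ^ (-(E.τ / 25) * (i : ℝ)) * (2 : ℝ) ^ (E.τ / 25 * (i : ℝ)) = 1 := by
    rw [← Real.rpow_add (by norm_num)]
    have : -(E.τ / 25) * (i : ℝ) + E.τ / 25 * (i : ℝ) = 0 := by ring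
    rw [this, Real.rpow_zero]
  have hA0 : (0 : ℝ) < (2 : ℝ) ^ (-(1 / 2 + E.δ / 2) * (i : ℝ)) := by positivity
  have hB0 : (0 : ℝ) < (2 : ℝ) ^ (-(E.τ / 25) * (i : ℝ)) := by positivity
  calc 5 * (i : ℝ) * (2 * (i : ℝ) * (12 * (2 : ℝ) ^ (-(1 / 2 + E.δ / 2) * (i : ℝ)) *
        (2 : ℝ) ^ (-(E.τ / 25) * (i : ℝ)))) * ((i : ℝ) ^ 40 * 64)
      = (2 : ℝ) ^ (-(1 / 2 + E.δ / 2) * (i : ℝ)) * ((2 : ℝ) ^ (-(E.τ / 25) * (i : ℝ)) *
        (64 * 24 * 5 * (i : ℝ) ^ 42)) := by ring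
    _ ≤ (2 : ℝ) ^ (-(1 / 2 + E.δ / 2) * (i : ℝ)) * ((2 : ℝ) ^ (-(E.τ / 25) * (i : ℝ)) *
        (2 : ℝ) ^ (E.τ / 25 * (i : ℝ))) := by
        gcongr
    _ = (2 : ℝ) ^ (-(1 / 2 + E.δ / 2) * (i : ℝ)) := by rw [hneg, mul_one]

end Pool.Agent.TH715.J785
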